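import Mathlib

/-!
# Comparability graphs and clique graphs: definitions
-/

set_option autoImplicit false

namespace Pool.Agent.N414.CG

/-- The comparability graph of an ordered set: two distinct elements are adjacent if and only if
they are comparable. -/
def comparabilityGraph (P : Type) [PartialOrder P] : SimpleGraph P where
  Adj x y := x ≠ y ∧ (x ≤ y ∨ y ≤ x)
  symm := ⟨fun _ _ h => ⟨h.1.symm, h.2.symm⟩⟩
  loopless := ⟨fun _ h => h.1 rfl⟩

/-- The clique graph of `G`: its vertices are the (inclusion-)maximal cliques of `G`, and two
distinct maximal cliques are adjacent if and only if they share at least one vertex. -/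
def cliqueGraph {V : Type} (G : SimpleGraph V) : SimpleGraph {Q : Set V // Maximal G.IsClique Q} where
  Adj Q R := Q ≠ R ∧ (Q.1 ∩ R.1).Nonempty
  symm := ⟨fun _ _ h => ⟨h.1.symm, by rw [Set.inter_comm]; exact h.2⟩⟩
  loopless := ⟨fun _ h => h.1 rfl⟩

/-- A graph together with its vertex set. -/
structure Graph where
  /-- the vertex set -/
  V : Type
  /-- the graph -/
  G : SimpleGraph V

/-- The clique operator. -/
def K (X : Graph) : Graph := ⟨{Q : Set X.V // Maximal X.G.IsClique Q}, cliqueGraph X.G⟩

end Pool.Agent.N414.CG
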