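import Mathlib
import Pool.Agent.H506R2.FPP
import Pool.Agent.N414.CGDefs

/-!
# The fixed point property does not imply collapsing iterated clique graphs

Let `c` be a `ZMod 2`-valued function on the pairs of equal or adjacent vertices of a graph with
`c x y + c y z = c x z` for pairwise adjacent or equal `x`, `y`, `z`. If `c` is not of the form
`f x + f y`, then there is such a function on the clique graph as well: fix a vertex `v_Q` in every
maximal clique `Q` and put `c' Q R = c v_Q w + c w v_R` for any common vertex `w` of `Q` and `R`.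
Hence no iterated clique graph is a single vertex. There is a `17`-element ordered set with the
fixed point property whose comparability graph has such a function `c`.
-/

set_option autoImplicit false

namespace Pool.Agent.N414.CG

/-! ### The invariant -/

/-- equal or adjacent -/
def Rel (X : Graph) (x y : X.V) : Prop := x = y ∨ X.G.Adj x y

lemma Rel.symm {X : Graph} {x y : X.V} (h : Rel X x y) : Rel X y x :=
  h.elim (fun h => Or.inl h.symm) (fun h => Or.inr h.symm)

/-- a cocycle which is not a coboundary -/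
structure Coc (X : Graph) (c : X.V → X.V → ZMod 2) : Prop where
  add : ∀ x y z, Rel X x y → Rel X y z → Rel X x z → c x y + c y z = c x z
  ne : ¬ ∃ f : X.V → ZMod 2, ∀ x y, Rel X x y → c x y = f x + f y

lemma z2 (a : ZMod 2) : a + a = 0 := by
  revert a; decide

lemma Coc.self {X : Graph} {c : X.V → X.V → ZMod 2} (h : Coc X c) (x : X.V) : c x x = 0 := by
  have := h.add x x x (Or.inl rfl) (Or.inl rfl) (Or.inl rfl)
  rwa [z2, eq_comm] at this

lemma Coc.symm {X : Graph} {c : X.V → X.V → ZMod 2} (h : Coc X c) {x y : X.V}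
    (hxy : Rel X x y) : c x y = c y x := by
  have h1 := h.add x y x hxy hxy.symm (Or.inl rfl)
  rw [h.self] at h1
  have h2 := z2 (c y x)
  exact add_right_cancel (h1.trans h2.symm)

lemma rel_of_mem {X : Graph} {Q : Set X.V} (hQ : X.G.IsClique Q) {x y : X.V} (hx : x ∈ Q)
    (hy : y ∈ Q) : Rel X x y := by
  by_cases h : x = y
  · exact Or.inl h
  · exact Or.inr (hQ hx hy h)

lemma exists_max {X : Graph} [Finite X.V] {x y : X.V} (h : Rel X x y) :
    ∃ Q : (K X).V, x ∈ Q.1 ∧ y ∈ Q.1 := by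
  have h1 : X.G.IsClique {x, y} := by
    rcases h with rfl | h
    · simp
    · rw [SimpleGraph.isClique_pair]
      exact fun _ => h
  obtain ⟨Q, hle, hQ⟩ := Finite.exists_le_maximal (p := X.G.IsClique) h1
  exact ⟨⟨Q, hQ⟩, hle (by simp), hle (by simp)⟩

lemma nonempty_of_max {X : Graph} [Nonempty X.V] (Q : (K X).V) : Q.1.Nonempty := by
  by_contra h
  rw [Set.not_nonempty_iff_eq_empty] at h
  obtain ⟨x⟩ := (inferInstance : Nonempty X.V)
  have h1 : X.G.IsClique {x} := by simp
  have h2 := Q.2.2 h1 (by rw [h]; exact Set.empty_subset _)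
  have h3 : x ∈ Q.1 := h2 rfl
  rw [h] at h3
  exact h3

lemma rel_K {X : Graph} [Nonempty X.V] {Q R : (K X).V} :
    Rel (K X) Q R ↔ ∃ w, w ∈ Q.1 ∧ w ∈ R.1 := by
  constructor
  · rintro (rfl | h)
    · obtain ⟨w, hw⟩ := nonempty_of_max Q
      exact ⟨w, hw, hw⟩
    · obtain ⟨w, hw⟩ := h.2
      exact ⟨w, hw.1, hw.2⟩
  · rintro ⟨w, hw⟩
    by_cases h : Q = R
    · exact Or.inl h
    · exact Or.inr ⟨h, w, hw.1, hw.2⟩

theorem coc_K {X : Graph} [Finite X.V] [Nonempty X.V] {c : X.V → X.V → ZMod 2} (h : Coc X c) :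
    ∃ c', Coc (K X) c' := by
  classical
  choose v hv using fun Q : (K X).V => nonempty_of_max Q
  let c' : (K X).V → (K X).V → ZMod 2 := fun Q R =>
    if hw : ∃ w, w ∈ Q.1 ∧ w ∈ R.1 then c (v Q) hw.choose + c hw.choose (v R) else 0
  have key : ∀ (Q R : (K X).V) (w : X.V), w ∈ Q.1 → w ∈ R.1 →
      c' Q R = c (v Q) w + c w (v R) := by
    intro Q R w hQ hR
    have hw : ∃ w, w ∈ Q.1 ∧ w ∈ R.1 := ⟨w, hQ, hR⟩
    simp only [c', dif_pos hw]
    obtain ⟨h1, h2⟩ := hw.choose_spec
    generalize hw.choose = u at h1 h2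
    have rQ := Q.2.1
    have rR := R.2.1
    have e1 := h.add (v Q) u w (rel_of_mem rQ (hv Q) h1) (rel_of_mem rQ h1 hQ)
      (rel_of_mem rQ (hv Q) hQ)
    have e2 := h.add w u (v R) (rel_of_mem rR hR h2) (rel_of_mem rR h2 (hv R))
      (rel_of_mem rR hR (hv R))
    have e3 := h.symm (rel_of_mem rQ h1 hQ)
    rw [← e1, ← e2, e3]
    have := z2 (c w u)
    linear_combination (-1 : ZMod 2) * this
  refine ⟨c', ?_, ?_⟩
  · intro Q R S hQR hRS hQS
    rw [rel_K] at hQR hRS hQS
    obtain ⟨w1, a1, b1⟩ := hQR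
    obtain ⟨w2, a2, b2⟩ := hRS
    obtain ⟨w3, a3, b3⟩ := hQS
    rw [key Q R w1 a1 b1, key R S w2 a2 b2, key Q S w3 a3 b3]
    have rQ := Q.2.1
    have rR := R.2.1
    have rS := S.2.1
    have e1 := h.add w1 (v R) w2 (rel_of_mem rR b1 (hv R)) (rel_of_mem rR (hv R) a2)
      (rel_of_mem rR b1 a2)
    have e2 := h.add (v Q) w3 w1 (rel_of_mem rQ (hv Q) a3) (rel_of_mem rQ a3 a1)
      (rel_of_mem rQ (hv Q) a1)
    have e3 := h.add w2 w3 (v S) (rel_of_mem rS b2 b3) (rel_of_mem rS b3 (hv S))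
      (rel_of_mem rS b2 (hv S))
    have e4 := h.add w3 w1 w2 (rel_of_mem rQ a3 a1) (rel_of_mem rR b1 a2) (rel_of_mem rS b3 b2)
    have e5 := h.symm (rel_of_mem rS b2 b3)
    have e6 := z2 (c w2 w3)
    rw [← e2, ← e3]
    linear_combination e1 + e4 + e6 - e5
  · rintro ⟨f, hf⟩
    apply h.ne
    choose q hq1 hq2 using fun x : X.V => exists_max (X := X) (x := x) (y := x) (Or.inl rfl)
    refine ⟨fun x => f (q x) + c (v (q x)) x, fun x y hxy => ?_⟩
    obtain ⟨Q, hx, hy⟩ := exists_max hxy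
    have rQ := Q.2.1
    have e1 := key (q x) Q x (hq1 x) hx
    have e2 := key (q y) Q y (hq1 y) hy
    rw [hf _ _ (rel_K.2 ⟨x, hq1 x, hx⟩)] at e1
    rw [hf _ _ (rel_K.2 ⟨y, hq1 y, hy⟩)] at e2
    have e3 := h.add x (v Q) y (rel_of_mem rQ hx (hv Q)) (rel_of_mem rQ (hv Q) hy)
      (rel_of_mem rQ hx hy)
    have e4 := h.symm (rel_of_mem rQ (hv Q) hy)
    have e5 := z2 (f Q)
    have e6 := z2 (c (v (q x)) x)
    have e7 := z2 (c (v (q y)) y)
    show c x y = f (q x) + c (v (q x)) x + (f (q y) + c (v (q y)) y)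
    linear_combination e4 - e3 - e1 - e2 + e5 - e6 - e7

theorem iterate {X : Graph} [Finite X.V] [Nonempty X.V] {c : X.V → X.V → ZMod 2} (h : Coc X c)
    (n : ℕ) : Finite (K^[n] X).V ∧ Nonempty (K^[n] X).V ∧ ∃ c', Coc (K^[n] X) c' := by
  induction n with
  | zero => exact ⟨‹Finite X.V›, ‹Nonempty X.V›, c, h⟩
  | succ n ih =>
    obtain ⟨h1, h2, c', h3⟩ := ih
    rw [Function.iterate_succ_apply']
    refine ⟨?_, ?_, coc_K h3⟩
    · exact inferInstanceAs (Finite {Q : Set (K^[n] X).V // Maximal (K^[n] X).G.IsClique Q})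
    · obtain ⟨x⟩ := h2
      obtain ⟨Q, -, -⟩ := exists_max (X := K^[n] X) (x := x) (y := x) (Or.inl rfl)
      exact ⟨Q⟩

theorem two_le {X : Graph} [Finite X.V] [Nonempty X.V] {c : X.V → X.V → ZMod 2} (h : Coc X c) :
    2 ≤ Nat.card X.V := by
  by_contra hcon
  have h1 : Nat.card X.V ≤ 1 := by omega
  rw [Finite.card_le_one_iff_subsingleton] at h1
  apply h.ne
  refine ⟨fun _ => 0, fun x y _ => ?_⟩
  rw [Subsingleton.elim y x, h.self, add_zero]

/-! ### The ordered set -/

/-- up-sets of the elements, as bit masks -/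
def up : List ℕ := [14433, 90882, 105636, 26952, 120464, 6176, 10304, 36992, 24832, 82432, 99328,
  2048, 4096, 8192, 16384, 32768, 65536]

/-- down-sets of the elements, as bit masks -/
def dn : List ℕ := [1, 2, 4, 8, 16, 37, 73, 148, 266, 530, 1044, 2157, 4277, 8523, 17178, 33940,
  67094]

/-- the pairs of an element and an upper cover -/
def cov : List (ℕ × ℕ) := [(0, 5), (0, 6), (1, 8), (1, 9), (2, 5), (2, 7), (2, 10), (3, 6), (3, 8),
  (4, 7), (4, 9), (4, 10), (5, 11), (5, 12), (6, 11), (6, 13), (7, 12), (7, 15), (8, 13), (8, 14),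
  (9, 14), (9, 16), (10, 15), (10, 16)]

/-- the underlying set -/
structure P where
  /-- the number of the element -/
  v : Fin 17
deriving DecidableEq

/-- `P` and `Fin 17` -/
def equivP : P ≃ Fin 17 := ⟨P.v, P.mk, fun _ => rfl, fun _ => rfl⟩

instance : Fintype P := Fintype.ofEquiv (Fin 17) equivP.symm

/-- the order -/
def leb (a b : ℕ) : Bool := (up.getD a 0).testBit b

instance : LE P := ⟨fun a b => leb a.v b.v = true⟩

instance : PartialOrder P where
  le_refl a := by
    have : ∀ a : Fin 17, leb a a = true := by decide +kernel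
    exact this a.v
  le_trans a b c h1 h2 := by
    have : ∀ a b c : Fin 17, leb a b = true → leb b c = true → leb a c = true := by
      decide +kernel
    exact this _ _ _ h1 h2
  le_antisymm a b h1 h2 := by
    have : ∀ a b : Fin 17, leb a b = true → leb b a = true → a = b := by decide +kernel
    have h := this _ _ h1 h2
    cases a; cases b
    exact congrArg P.mk h

/-- start domains: everything except the point itself -/
def D0 : List ℕ := [131070, 131069, 131067, 131063, 131055, 131039, 131007, 130943, 130815, 130559,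
  130047, 129023, 126975, 122879, 114687, 98303, 65535]

theorem fpp (f : P →o P) : ∃ x, f x = x := by
  by_contra hcon
  push Not at hcon
  let g : ℕ → ℕ := fun i => if h : i < 17 then (f ⟨⟨i, h⟩⟩).v.val else 0
  have hg : ∀ (i : ℕ) (h : i < 17), g i = (f ⟨⟨i, h⟩⟩).v.val := fun i h => by
    simp only [g, dif_pos h]
  have hgood : H506R2.FPP.Good 17 up dn cov g := by
    constructor
    · intro i hi
      rw [hg i hi]
      exact (f ⟨⟨i, hi⟩⟩).v.isLt
    · intro c hc
      have h1 : ∀ c ∈ cov, c.1 < 17 ∧ c.2 < 17 ∧ c.1 ≠ c.2 ∧ leb c.1 c.2 = true := by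
        decide +kernel
      obtain ⟨h1, h2, h3, h4⟩ := h1 c hc
      have h5 : f ⟨⟨c.1, h1⟩⟩ ≤ f ⟨⟨c.2, h2⟩⟩ := f.monotone h4
      have h6 : ∀ a b : Fin 17, leb a b = true → (dn.getD b 0).testBit a = true := by
        decide +kernel
      refine ⟨h1, h2, h3, ?_, ?_⟩
      · rw [hg _ h1, hg _ h2]
        exact h5
      · rw [hg _ h1, hg _ h2]
        exact h6 _ _ h5
  have hinv : H506R2.FPP.Inv 17 g D0 := by
    refine ⟨by decide, fun x hx => ?_⟩
    have h1 : ∀ x y : Fin 17, y ≠ x → (D0.getD x 0).testBit y = true := by decide +kernel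
    rw [hg x hx]
    refine h1 ⟨x, hx⟩ _ fun h => hcon ⟨⟨x, hx⟩⟩ ?_
    generalize f ⟨⟨x, hx⟩⟩ = y at h
    cases y
    exact congrArg P.mk h
  have h := H506R2.FPP.search_sound hgood 5 [9] (by simp) hinv
  have h' : H506R2.FPP.search 17 up dn cov 5 [9] D0 = true := by decide +kernel
  rw [h'] at h
  exact Bool.noConfusion h

/-- an order-preserving map to the four-point circle: `0`, `1` are the two minimal points, `2`, `3`
the maximal ones -/
def hh : List ℕ := [1, 0, 0, 1, 0, 2, 1, 0, 3, 0, 3, 2, 2, 3, 3, 3, 3]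

/-- the cocycle -/
def cc (a b : ℕ) : ZMod 2 :=
  if hh.getD a 0 = 1 ∧ hh.getD b 0 = 3 ∨ hh.getD a 0 = 3 ∧ hh.getD b 0 = 1 then 1 else 0

/-- equal or comparable -/
def rr (a b : ℕ) : Bool := leb a b || leb b a

lemma rel_iff (x y : P) : Rel ⟨P, comparabilityGraph P⟩ x y ↔ rr x.v y.v = true := by
  have h1 : ∀ x : P, leb x.v x.v = true := fun x => le_refl x
  constructor
  · rintro (rfl | ⟨_, h | h⟩)
    · unfold rr; rw [h1, Bool.true_or]
    · unfold rr; rw [show leb x.v y.v = true from h, Bool.true_or]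
    · unfold rr; rw [show leb y.v x.v = true from h, Bool.or_true]
  · intro h
    by_cases hxy : x = y
    · exact Or.inl hxy
    · refine Or.inr ⟨hxy, ?_⟩
      unfold rr at h
      rw [Bool.or_eq_true] at h
      exact h

theorem coc : Coc ⟨P, comparabilityGraph P⟩ (fun x y => cc x.v y.v) := by
  constructor
  · intro x y z h1 h2 h3
    rw [rel_iff] at h1 h2 h3
    have : ∀ x y z : Fin 17, rr x y = true → rr y z = true → rr x z = true →
        cc x y + cc y z = cc x z := by decide +kernel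
    exact this _ _ _ h1 h2 h3
  · rintro ⟨f, hf⟩
    have h : ∀ a b : Fin 17, rr a b = true → cc a b = f ⟨a⟩ + f ⟨b⟩ := fun a b hab =>
      hf ⟨a⟩ ⟨b⟩ ((rel_iff _ _).2 hab)
    have h1 := h 0 13 (by decide +kernel)
    have h2 := h 13 1 (by decide +kernel)
    have h3 := h 1 16 (by decide +kernel)
    have h4 := h 16 2 (by decide +kernel)
    have h5 := h 2 5 (by decide +kernel)
    have h6 := h 5 0 (by decide +kernel)
    have h7 : cc (0 : Fin 17) (13 : Fin 17) + cc (13 : Fin 17) (1 : Fin 17) +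
        cc (1 : Fin 17) (16 : Fin 17) + cc (16 : Fin 17) (2 : Fin 17) +
        cc (2 : Fin 17) (5 : Fin 17) + cc (5 : Fin 17) (0 : Fin 17) = 1 := by decide +kernel
    rw [h1, h2, h3, h4, h5, h6] at h7
    have e1 := z2 (f ⟨0⟩)
    have e2 := z2 (f ⟨13⟩)
    have e3 := z2 (f ⟨1⟩)
    have e4 := z2 (f ⟨16⟩)
    have e5 := z2 (f ⟨2⟩)
    have e6 := z2 (f ⟨5⟩)
    have : (0 : ZMod 2) = 1 := by linear_combination h7 - e1 - e2 - e3 - e4 - e5 - e6
    exact absurd this (by decide)

/-- There is a finite ordered set with the fixed point property all of whose iterated clique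
graphs have at least two vertices. -/
theorem main : ∃ (P : Type) (_ : PartialOrder P), Finite P ∧ Nonempty P ∧
    (∀ f : P →o P, ∃ x, f x = x) ∧
    ∀ n : ℕ, 2 ≤ Nat.card (K^[n] ⟨P, comparabilityGraph P⟩).V := by
  have : Nonempty P := ⟨⟨0⟩⟩
  refine ⟨P, inferInstance, inferInstance, this, fpp, fun n => ?_⟩
  obtain ⟨h1, h2, c', h3⟩ := iterate (X := ⟨P, comparabilityGraph P⟩) coc n
  exact two_le h3

end Pool.Agent.N414.CG
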