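import Mathlib

/-!
# Equistable, strongly equistable and weakly CIS graphs: definitions
-/

set_option autoImplicit false

namespace Pool.Agent.N414.Eq

/-- `S` is a maximal stable set of `G`. -/
def MaxStable {V : Type} (G : SimpleGraph V) (S : Finset V) : Prop :=
  Maximal (fun S : Finset V => G.IsIndepSet (S : Set V)) S

/-- `C` is a maximal clique of `G`. -/
def MaxClique {V : Type} (G : SimpleGraph V) (C : Finset V) : Prop :=
  Maximal (fun C : Finset V => G.IsClique (C : Set V)) C

/-- `G` is equistable: some nonnegative vertex weighting gives total weight `1` to exactly the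
maximal stable sets. -/
def Equistable {V : Type} (G : SimpleGraph V) : Prop :=
  ∃ φ : V → ℝ, (∀ x, 0 ≤ φ x) ∧ ∀ S : Finset V, MaxStable G S ↔ ∑ x ∈ S, φ x = 1

/-- `G` is strongly equistable: for each nonempty set `T` of vertices that is not a maximal stable
set and each real `γ ≤ 1`, some positive vertex weighting gives total weight `1` to each maximal
stable set and a total weight different from `γ` to `T`. -/
def StronglyEquistable {V : Type} (G : SimpleGraph V) : Prop :=
  ∀ T : Finset V, T.Nonempty → ¬ MaxStable G T → ∀ γ : ℝ, γ ≤ 1 →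
    ∃ φ : V → ℝ, (∀ x, 0 < φ x) ∧ (∀ S : Finset V, MaxStable G S → ∑ x ∈ S, φ x = 1) ∧
      ∑ x ∈ T, φ x ≠ γ

/-- `G` is weakly CIS: there are a family `𝓒` of maximal cliques such that every two adjacent
vertices lie together in a member of `𝓒`, and a family `𝓢` of maximal stable sets such that every
two distinct non-adjacent vertices lie together in a member of `𝓢`, such that every member of `𝓒`
intersects every member of `𝓢`. -/
def WeaklyCIS {V : Type} (G : SimpleGraph V) : Prop :=
  ∃ 𝓒 𝓢 : Set (Finset V),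
    (∀ C ∈ 𝓒, MaxClique G C) ∧ (∀ S ∈ 𝓢, MaxStable G S) ∧
    (∀ u v : V, G.Adj u v → ∃ C ∈ 𝓒, u ∈ C ∧ v ∈ C) ∧
    (∀ u v : V, u ≠ v → ¬ G.Adj u v → ∃ S ∈ 𝓢, u ∈ S ∧ v ∈ S) ∧
    ∀ C ∈ 𝓒, ∀ S ∈ 𝓢, ∃ x, x ∈ C ∧ x ∈ S

end Pool.Agent.N414.Eq
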