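import Mathlib
import Pool.Agent.N414.EqDefs

/-!
# A strongly equistable graph on 11 vertices that is not weakly CIS

Let `F` be the triangle-free graph with the edges `45, 13, 23, 04, 03, 15, 24` and a pendant edge
at each of `0, 1, 2, 5`, and let `G` be the complement of its line graph. The maximal stable sets of
`G` are the stars of the six vertices `0, ..., 5` of `F`, and every two distinct non-adjacent
vertices of `G` lie in exactly one of them, so a non-edge covering family contains all of them. No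
matching of `F` containing the edge `15` and the pendant edge at `0` covers both `3` and `4`.
-/

set_option autoImplicit false

namespace Pool.Agent.N414.Eq

/-! ### General facts -/

theorem maxStable_iff {V : Type} [DecidableEq V] (G : SimpleGraph V) (S : Finset V) :
    MaxStable G S ↔ (∀ x ∈ S, ∀ y ∈ S, ¬ G.Adj x y) ∧ ∀ x, x ∉ S → ∃ y ∈ S, G.Adj x y := by
  constructor
  · rintro ⟨h1, h2⟩
    have h1' : ∀ x ∈ S, ∀ y ∈ S, ¬ G.Adj x y := by
      intro x hx y hy hxy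
      exact h1 hx hy hxy.ne hxy
    refine ⟨h1', fun x hx => ?_⟩
    by_contra hcon
    push Not at hcon
    have h3 : G.IsIndepSet ((insert x S : Finset V) : Set V) := by
      intro a ha b hb hab hadj
      rw [Finset.mem_coe, Finset.mem_insert] at ha hb
      rcases ha with rfl | ha
      · rcases hb with rfl | hb
        · exact hab rfl
        · exact hcon b hb hadj
      · rcases hb with rfl | hb
        · exact hcon a ha hadj.symm
        · exact h1' a ha b hb hadj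
    exact hx (h2 h3 (Finset.subset_insert x S) (Finset.mem_insert_self x S))
  · rintro ⟨h1, h2⟩
    refine ⟨fun x hx y hy _ hadj => h1 x hx y hy hadj, fun T hT hST x hx => ?_⟩
    by_contra hxS
    obtain ⟨y, hy, hxy⟩ := h2 x hxS
    exact hT hx (hST hy) hxy.ne hxy

/-- The six stars of `F`. -/
def star : Fin 6 → Finset (Fin 11) :=
  ![{3, 4, 7}, {1, 5, 8}, {2, 6, 9}, {1, 2, 4}, {0, 3, 6}, {0, 5, 10}]

/-- The complement of the line graph of `F`. -/
def graph : SimpleGraph (Fin 11) where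
  Adj e f := e ≠ f ∧ ∀ i, ¬ (e ∈ star i ∧ f ∈ star i)
  symm := ⟨fun _ _ h => ⟨h.1.symm, fun i hi => h.2 i ⟨hi.2, hi.1⟩⟩⟩
  loopless := ⟨fun _ h => h.1 rfl⟩

instance : DecidableRel graph.Adj := fun e f =>
  inferInstanceAs (Decidable (e ≠ f ∧ ∀ i, ¬ (e ∈ star i ∧ f ∈ star i)))

theorem star_maxStable (i : Fin 6) : MaxStable graph (star i) := by
  rw [maxStable_iff]
  revert i
  decide +kernel

theorem triple : ∀ e f g : Fin 11, e ≠ f → ¬ graph.Adj e f → ¬ graph.Adj e g →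
    ¬ graph.Adj f g → ∀ i, e ∈ star i → f ∈ star i → g ∈ star i := by
  decide +kernel

theorem single : ∀ e : Fin 11, ∃ i, e ∈ star i := by
  decide +kernel

theorem pair : ∀ e f : Fin 11, e ≠ f → ¬ graph.Adj e f → ∃ i, e ∈ star i ∧ f ∈ star i := by
  decide +kernel

theorem eq_star {S : Finset (Fin 11)} (hS : MaxStable graph S) : ∃ i, S = star i := by
  have h := (maxStable_iff graph S).1 hS
  have key : ∃ i, S ⊆ star i := by
    by_cases h1 : ∃ e ∈ S, ∃ f ∈ S, e ≠ f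
    · obtain ⟨e, he, f, hf, hef⟩ := h1
      obtain ⟨i, hi, hj⟩ := pair e f hef (h.1 e he f hf)
      exact ⟨i, fun g hg => triple e f g hef (h.1 e he f hf) (h.1 e he g hg) (h.1 f hf g hg)
        i hi hj⟩
    · push Not at h1
      by_cases h2 : S.Nonempty
      · obtain ⟨e, he⟩ := h2
        obtain ⟨i, hi⟩ := single e
        exact ⟨i, fun g hg => (h1 e he g hg) ▸ hi⟩
      · rw [Finset.not_nonempty_iff_eq_empty] at h2
        exact ⟨0, by rw [h2]; exact Finset.empty_subset _⟩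
  obtain ⟨i, hi⟩ := key
  exact ⟨i, le_antisymm hi (hS.2 (star_maxStable i).1 hi)⟩

/-- Six weightings with values in `1/63`-ths. -/
def W : Fin 6 → Fin 11 → ℕ :=
  ![![40, 41, 12, 17, 10, 3, 6, 36, 19, 45, 20],
    ![40, 42, 12, 17, 9, 3, 6, 37, 18, 45, 20],
    ![40, 41, 13, 17, 9, 3, 6, 37, 19, 44, 20],
    ![41, 41, 12, 17, 10, 3, 5, 36, 19, 46, 19],
    ![40, 41, 12, 18, 10, 3, 5, 35, 19, 46, 20],
    ![40, 41, 12, 17, 10, 4, 6, 36, 18, 45, 19]]

theorem W_pos : ∀ j x, 0 < W j x := by decide +kernel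

theorem W_star : ∀ j i, ∑ x ∈ star i, W j x = 63 := by decide +kernel

/-- The weightings of `G`. -/
noncomputable def φ (j : Fin 6) (x : Fin 11) : ℝ := (W j x : ℝ) / 63

theorem φ_sum (j : Fin 6) (T : Finset (Fin 11)) :
    ∑ x ∈ T, φ j x = ((∑ x ∈ T, W j x : ℕ) : ℝ) / 63 := by
  unfold φ
  rw [Nat.cast_sum, Finset.sum_div]

theorem φ_pos (j : Fin 6) (x : Fin 11) : 0 < φ j x := by
  unfold φ
  have := W_pos j x
  positivity

theorem φ_star (j : Fin 6) (S : Finset (Fin 11)) (hS : MaxStable graph S) :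
    ∑ x ∈ S, φ j x = 1 := by
  obtain ⟨i, rfl⟩ := eq_star hS
  rw [φ_sum, W_star]
  norm_num

/-- The finite check for the first weighting. -/
theorem key0 : ∀ a0 a1 a2 a3 a4 a5 a6 a7 a8 a9 a10 : Bool,
    40 * a0.toNat + 41 * a1.toNat + 12 * a2.toNat + 17 * a3.toNat + 10 * a4.toNat + 3 * a5.toNat +
      6 * a6.toNat + 36 * a7.toNat + 19 * a8.toNat + 45 * a9.toNat + 20 * a10.toNat = 63 →
    ∃ i, ∀ k, ![a0, a1, a2, a3, a4, a5, a6, a7, a8, a9, a10] k = decide (k ∈ star i) := by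
  decide +kernel

/-- The finite check for all the weightings. -/
theorem key1 : ∀ a0 a1 a2 a3 a4 a5 a6 a7 a8 a9 a10 : Bool,
    a1.toNat + a7.toNat = a4.toNat + a8.toNat →
    a2.toNat + a7.toNat = a4.toNat + a9.toNat →
    a0.toNat + a9.toNat = a6.toNat + a10.toNat →
    a3.toNat + a9.toNat = a6.toNat + a7.toNat →
    a5.toNat = a8.toNat + a10.toNat →
    40 * a0.toNat + 41 * a1.toNat + 12 * a2.toNat + 17 * a3.toNat + 10 * a4.toNat + 3 * a5.toNat +
      6 * a6.toNat + 36 * a7.toNat + 19 * a8.toNat + 45 * a9.toNat + 20 * a10.toNat ≤ 63 →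
    (∀ k, ![a0, a1, a2, a3, a4, a5, a6, a7, a8, a9, a10] k = false) ∨
    ∃ i, ∀ k, ![a0, a1, a2, a3, a4, a5, a6, a7, a8, a9, a10] k = decide (k ∈ star i) := by
  decide +kernel

theorem W_sum (j : Fin 6) (T : Finset (Fin 11)) :
    ∑ x ∈ T, W j x = ∑ x, W j x * (decide (x ∈ T)).toNat := by
  rw [← Finset.sum_subset (Finset.subset_univ T)]
  · refine Finset.sum_congr rfl fun x hx => ?_
    simp [hx]
  · intro x _ hx
    simp [hx]

theorem expand (f : Fin 11 → ℕ) : ∑ x, f x = f 0 + f 1 + f 2 + f 3 + f 4 + f 5 + f 6 + f 7 +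
    f 8 + f 9 + f 10 := by
  simp only [Fin.sum_univ_castSucc, Finset.univ_eq_empty, Finset.sum_empty, zero_add]
  rfl

theorem vec (t : Fin 11 → Bool) :
    ![t 0, t 1, t 2, t 3, t 4, t 5, t 6, t 7, t 8, t 9, t 10] = t := by
  funext k
  fin_cases k <;> rfl

theorem equistable_graph : Equistable graph := by
  refine ⟨φ 0, fun x => (φ_pos 0 x).le, fun S => ⟨φ_star 0 S, fun h => ?_⟩⟩
  have h1 : ∑ x ∈ S, W 0 x = 63 := by
    rw [φ_sum, div_eq_one_iff_eq (by norm_num)] at h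
    exact_mod_cast h
  obtain ⟨t, ht⟩ : ∃ t : Fin 11 → Bool, ∀ x, decide (x ∈ S) = t x := ⟨_, fun x => rfl⟩
  simp only [W_sum, ht, expand] at h1
  have h2 := key0 (t 0) (t 1) (t 2) (t 3) (t 4) (t 5) (t 6) (t 7) (t 8) (t 9) (t 10) h1
  rw [vec] at h2
  obtain ⟨i, hi⟩ := h2
  have : S = star i := by
    ext x
    have := hi x
    rw [← ht x] at this
    simpa using this
  rw [this]
  exact star_maxStable i

theorem stronglyEquistable_graph : StronglyEquistable graph := by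
  intro T hT hT' γ hγ
  by_contra hcon
  push Not at hcon
  have h1 : ∀ j, ∑ x ∈ T, φ j x = γ := fun j => hcon (φ j) (φ_pos j) (φ_star j)
  have h2 : ∀ j, ∑ x ∈ T, W j x = ∑ x ∈ T, W 0 x := by
    intro j
    have h := (h1 j).trans (h1 0).symm
    rw [φ_sum, φ_sum] at h
    have h' : ((∑ x ∈ T, W j x : ℕ) : ℝ) = ((∑ x ∈ T, W 0 x : ℕ) : ℝ) := by linarith
    exact_mod_cast h'
  have h3 : ∑ x ∈ T, W 0 x ≤ 63 := by
    have h := h1 0
    rw [φ_sum] at h
    have h' : ((∑ x ∈ T, W 0 x : ℕ) : ℝ) ≤ 63 := by linarith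
    exact_mod_cast h'
  obtain ⟨t, ht⟩ : ∃ t : Fin 11 → Bool, ∀ x, decide (x ∈ T) = t x := ⟨_, fun x => rfl⟩
  simp only [W_sum, ht, expand] at h2 h3
  have e0 : 40 * (t 0).toNat + 41 * (t 1).toNat + 12 * (t 2).toNat + 17 * (t 3).toNat +
      10 * (t 4).toNat + 3 * (t 5).toNat + 6 * (t 6).toNat + 36 * (t 7).toNat +
      19 * (t 8).toNat + 45 * (t 9).toNat + 20 * (t 10).toNat ≤ 63 := h3
  have e1 := h2 1
  have e2 := h2 2
  have e3 := h2 3
  have e4 := h2 4
  have e5 := h2 5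
  clear h2 h3
  simp only [W, Matrix.cons_val, Fin.isValue] at e1 e2 e3 e4 e5
  have h := key1 (t 0) (t 1) (t 2) (t 3) (t 4) (t 5) (t 6) (t 7) (t 8) (t 9) (t 10) (by omega)
    (by omega) (by omega) (by omega) (by omega) e0
  rw [vec] at h
  rcases h with h | ⟨i, hi⟩
  · obtain ⟨x, hx⟩ := hT
    have := h x
    rw [← ht x] at this
    exact absurd hx (by simpa using this)
  · refine hT' ?_
    have : T = star i := by
      ext x
      have := hi x
      rw [← ht x] at this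
      simpa using this
    rw [this]
    exact star_maxStable i

/-- two elements of every star that lie in no other star -/
theorem in_family {𝓢 : Set (Finset (Fin 11))} (h1 : ∀ S ∈ 𝓢, MaxStable graph S)
    (h2 : ∀ u v : Fin 11, u ≠ v → ¬ graph.Adj u v → ∃ S ∈ 𝓢, u ∈ S ∧ v ∈ S) (i : Fin 6) :
    star i ∈ 𝓢 := by
  have h3 : ∀ i : Fin 6, ∃ u v : Fin 11, u ≠ v ∧ ¬ graph.Adj u v ∧
      ∀ j, u ∈ star j → v ∈ star j → j = i := by decide +kernel
  obtain ⟨u, v, huv, hadj, h4⟩ := h3 i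
  obtain ⟨S, hS, hu, hv⟩ := h2 u v huv hadj
  obtain ⟨j, rfl⟩ := eq_star (h1 S hS)
  rw [← h4 j hu hv]
  exact hS

theorem not_weaklyCIS : ¬ WeaklyCIS graph := by
  rintro ⟨𝓒, 𝓢, hC, hS, hCe, hSe, hX⟩
  obtain ⟨C, hC1, h5, h7⟩ := hCe 5 7 (by decide +kernel)
  obtain ⟨x, hx1, hx2⟩ := hX C hC1 (star 3) (in_family hS hSe 3)
  obtain ⟨y, hy1, hy2⟩ := hX C hC1 (star 4) (in_family hS hSe 4)
  have hcl := (hC C hC1).1
  have hcl' : ∀ a ∈ C, ∀ b ∈ C, a = b ∨ graph.Adj a b := by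
    intro a ha b hb
    by_cases hab : a = b
    · exact Or.inl hab
    · exact Or.inr (hcl ha hb hab)
  have key : ∀ x ∈ star 3, ∀ y ∈ star 4, ¬ ((x = 5 ∨ graph.Adj x 5) ∧ (x = 7 ∨ graph.Adj x 7) ∧
      (y = 5 ∨ graph.Adj y 5) ∧ (y = 7 ∨ graph.Adj y 7) ∧ (x = y ∨ graph.Adj x y)) := by
    decide +kernel
  exact key x hx2 y hy2 ⟨hcl' x hx1 5 h5, hcl' x hx1 7 h7, hcl' y hy1 5 h5, hcl' y hy1 7 h7,
    hcl' x hx1 y hy1⟩

/-- There is a graph on 11 vertices that is strongly equistable and equistable but not weakly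
CIS. -/
theorem main : ∃ G : SimpleGraph (Fin 11),
    Equistable G ∧ StronglyEquistable G ∧ ¬ WeaklyCIS G :=
  ⟨graph, equistable_graph, stronglyEquistable_graph, not_weaklyCIS⟩

end Pool.Agent.N414.Eq
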